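import Pool.Agent.Helper86.Ac.Goals

/-! Packet SYMD. -/

namespace Pool.Agent.Helper16.Ac

open Pool.Agent.Helper86.Acute Pool.Agent.Helper86.Ac

theorem sgn_mul_self (t : Bool) (sg k : ℕ) : sgn t sg k * sgn t sg k = 1 := by
  unfold sgn
  split <;> norm_num

variable {n : ℕ} {S : Fin n → Fin n → Fin n → St}

theorem pt_swap (hS : Adm S) (p q a b : Fin n) :
    pt S q p a b = oL (r12 (S p q a)) (r12 (S p q b)) (S q a b) (S p a b) := by
  unfold pt
  rw [hS.h12 p q a, hS.h12 p q b]

theorem pt_swap23 (hP : PayStmt) (hS : Adm S) (p q a b : Fin n) :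
    (pt S p q b a).f01 = (pt S p q a b).f01 := by
  unfold pt
  rw [(hP (S p q a) (S p q b) (S p a b) (S q a b)).2.2.2.2.2.2.1]
  rw [hS.h23 p a b, hS.h23 q a b]

theorem acs_swap (hP : PayStmt) (hS : Adm S) (p q a b : Fin n) : acs S q p a b = acs S p q a b := by
  unfold acs
  rw [pt_swap hS]
  exact (hP (S p q a) (S p q b) (S p a b) (S q a b)).2.2.2.2.2.2.2.1

theorem phi_swap (hP : PayStmt) (hS : Adm S) (k : ℕ) (hk : k < 11) (p q a b : Fin n) :
    phi S k q p a b = sgn true sg0 k * phi S k p q a b := by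
  unfold phi
  rw [pt_swap hS]
  exact (hP (S p q a) (S p q b) (S p a b) (S q a b)).2.2.2.2.2.2.2.2.1 k hk

theorem acs_swap23 (hP : PayStmt) (hS : Adm S) (p q a b : Fin n) :
    acs S p q b a = acs S p q a b := by
  unfold acs
  rw [pt_swap23 hP hS]

theorem phi_swap23 (hP : PayStmt) (hS : Adm S) (k : ℕ) (p q a b : Fin n) :
    phi S k p q b a = phi S k p q a b := by
  unfold phi
  rw [pt_swap23 hP hS]

theorem dis01 {a b c d u : Fin n} : Dis5 b a c d u ↔ Dis5 a b c d u := by
  unfold Dis5; constructor <;> (rintro ⟨h1, h2, h3, h4, h5, h6, h7, h8, h9, h10⟩; refine ⟨h1.symm, ?_⟩; tauto)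

theorem dis12 {a b c d u : Fin n} : Dis5 a c b d u ↔ Dis5 a b c d u := by
  unfold Dis5; constructor <;> (rintro ⟨h1, h2, h3, h4, h5, h6, h7, h8, h9, h10⟩; have := h5.symm; tauto)

theorem dis23 {a b c d u : Fin n} : Dis5 a b d c u ↔ Dis5 a b c d u := by
  unfold Dis5; constructor <;> (rintro ⟨h1, h2, h3, h4, h5, h6, h7, h8, h9, h10⟩; have := h8.symm; tauto)

theorem cd_t0 (hS : Adm S) (a b c d u : Fin n) : cd S b a c d u = (cd S a b c d u).t0 := by
  unfold cd C5.t0
  simp only
  rw [hS.h12 a b c, hS.h12 a b d, hS.h12 a b u]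

theorem cd_t1 (hS : Adm S) (a b c d u : Fin n) : cd S a c b d u = (cd S a b c d u).t1 := by
  unfold cd C5.t1
  simp only
  rw [hS.h23 a b c, hS.h12 b c d, hS.h12 b c u]

theorem cd_t2 (hS : Adm S) (a b c d u : Fin n) : cd S a b d c u = (cd S a b c d u).t2 := by
  unfold cd C5.t2
  simp only
  rw [hS.h23 a c d, hS.h23 b c d, hS.h12 c d u]

theorem D4_aux {x y : Fin n → ℕ → ℤ} (g : ℕ → ℤ) (u v : Fin n) (hg : ∀ k, g k * g k = 1)
    (h : ∀ w k, k < 11 → x w k = g k * y w k) :
    ∑ k ∈ Finset.range 11, x u k * x v k = ∑ k ∈ Finset.range 11, y u k * y v k := by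
  apply Finset.sum_congr rfl
  intro k hk
  have hk' := Finset.mem_range.1 hk
  rw [h u k hk', h v k hk']
  calc g k * y u k * (g k * y v k) = (g k * g k) * (y u k * y v k) := by ring
    _ = _ := by rw [hg k, one_mul]

theorem psi_q01 (hW : WalkStmt) (hS : Adm S) (a b c d w : Fin n) (k : ℕ) (hk : k < 11) :
    psi S k b a c d w = sgn (pt S a b c d).t0 (pt S a b c d).sg k * psi S k a b c d w := by
  unfold psi
  by_cases h : Dis5 a b c d w
  · rw [if_pos h, if_pos (dis01.2 h), cd_t0 hS]
    exact (hW _ (hS.h5 a b c d w h)).2.2.2.2.1 k hk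
  · rw [if_neg h, if_neg (fun h' => h (dis01.1 h')), mul_zero]

theorem psi_q12 (hW : WalkStmt) (hS : Adm S) (a b c d w : Fin n) (k : ℕ) (hk : k < 11) :
    psi S k a c b d w = sgn (pt S a b c d).t1 (pt S a b c d).sg k * psi S k a b c d w := by
  unfold psi
  by_cases h : Dis5 a b c d w
  · rw [if_pos h, if_pos (dis12.2 h), cd_t1 hS]
    exact (hW _ (hS.h5 a b c d w h)).2.2.2.2.2.1 k hk
  · rw [if_neg h, if_neg (fun h' => h (dis12.1 h')), mul_zero]

theorem psi_q23 (hW : WalkStmt) (hS : Adm S) (a b c d w : Fin n) (k : ℕ) (hk : k < 11) :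
    psi S k a b d c w = sgn (pt S a b c d).t2 (pt S a b c d).sg k * psi S k a b c d w := by
  unfold psi
  by_cases h : Dis5 a b c d w
  · rw [if_pos h, if_pos (dis23.2 h), cd_t2 hS]
    exact (hW _ (hS.h5 a b c d w h)).2.2.2.2.2.2 k hk
  · rw [if_neg h, if_neg (fun h' => h (dis23.1 h')), mul_zero]

theorem symd : SymDStmt := by
  intro hP hW n S hS
  refine ⟨?_, ?_, ?_, ?_, ?_, ?_, ?_⟩
  · intro p q a b c d
    unfold D2
    rw [acs_swap hP hS p q a b, acs_swap hP hS p q c d]
    congr 1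
    apply Finset.sum_congr rfl
    intro k hk
    have hk' := Finset.mem_range.1 hk
    rw [phi_swap hP hS k hk' p q a b, phi_swap hP hS k hk' p q c d]
    calc sgn true sg0 k * phi S k p q a b * (sgn true sg0 k * phi S k p q c d)
        = (sgn true sg0 k * sgn true sg0 k) * (phi S k p q a b * phi S k p q c d) := by ring
      _ = _ := by rw [sgn_mul_self, one_mul]
  · intro p q a b c d
    unfold D2
    rw [acs_swap23 hP hS p q a b]
    congr 1
    apply Finset.sum_congr rfl
    intro k _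
    rw [phi_swap23 hP hS k p q a b]
  · intro p q a b c d
    unfold D2
    rw [add_comm (acs S p q c d)]
    congr 1
    apply Finset.sum_congr rfl
    intro k _
    rw [mul_comm]
  · intro a b c d u v
    unfold D4
    exact D4_aux (x := fun w k => psi S k b a c d w) (y := fun w k => psi S k a b c d w)
      (fun k => sgn (pt S a b c d).t0 (pt S a b c d).sg k) u v (fun k => sgn_mul_self _ _ _)
      (fun w k hk => psi_q01 hW hS a b c d w k hk)
  · intro a b c d u v
    unfold D4
    exact D4_aux (x := fun w k => psi S k a c b d w) (y := fun w k => psi S k a b c d w)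
      (fun k => sgn (pt S a b c d).t1 (pt S a b c d).sg k) u v (fun k => sgn_mul_self _ _ _)
      (fun w k hk => psi_q12 hW hS a b c d w k hk)
  · intro a b c d u v
    unfold D4
    exact D4_aux (x := fun w k => psi S k a b d c w) (y := fun w k => psi S k a b c d w)
      (fun k => sgn (pt S a b c d).t2 (pt S a b c d).sg k) u v (fun k => sgn_mul_self _ _ _)
      (fun w k hk => psi_q23 hW hS a b c d w k hk)
  · intro a b c d u v
    unfold D4
    apply Finset.sum_congr rfl
    intro k _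
    rw [mul_comm]

end Pool.Agent.Helper16.Ac
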